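import Pool.Agent.H65.HW.GStm

/-! Crew HW, part TRM (helper68): the real matrix. -/

set_option autoImplicit false
open Classical Finset

namespace Pool.Agent.H68.HW

open Pool.Agent.H39.HW (sm Av ln blk lab Dat Sch)
open Pool.Agent.H65.HW (Num S_TRM)

/-- the matrix, abstractly -/
theorem trm_core (C Hb : Finset ℕ) (hHb : Hb ⊆ C) (H : ℕ) (hH : 1 ≤ H) (k : ℕ → ℕ → ℕ)
    (kt : ℕ → ℕ) (lo E S : ℕ → ℝ) (D ω μ ρ2 e1 : ℝ) (hD : 0 < D) (hω : 0 < ω) (hμ : 0 < μ)
    (hρ2 : 0 < ρ2) (he1 : 0 ≤ e1)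
    (hkt : ∀ β ∈ C, 1 ≤ kt β) (hk : ∀ β ∈ C, ∑ P ∈ range H, k P β = kt β)
    (hlo0 : ∀ β ∈ C, 0 ≤ lo β) (hlo2 : ∀ β ∈ C, lo β ≤ ρ2 * (ω * kt β))
    (hE1 : ∀ β ∈ C, 0.8 * (lo β * D) ≤ E β) (hE2 : ∀ β ∈ C, E β ≤ 1.1 * (lo β * D))
    (hg : ∀ P < H, |S P - ∑ β ∈ C, E β * (k P β : ℝ) / kt β| ≤ (e1 + 16 * μ) * D)
    (hcol : ∑ β ∈ C, E β = ∑ P ∈ range H, S P)
    (hb2 : ∀ β ∈ Hb, ∀ P < H, kt β ≤ 8 * H * k P β)
    (hb3 : 32 * H * (e1 + 40 * μ) ≤ ∑ β ∈ Hb, lo β)
    (hbig : (C.card : ℝ) * (C.card * H) ≤ 60 * (μ * D)) :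
    ∃ (d : ℕ → ℕ → ℝ) (β0 : ℕ), β0 ∈ C ∧
      (∀ P < H, ∀ β ∈ C, 0 ≤ d P β ∧ d P β ≤ 2 * ρ2 * ω * D * k P β) ∧
      (∀ P < H, ∑ β ∈ C, d P β = S P) ∧
      (∀ β ∈ C, ∑ P ∈ range H, d P β = E β) ∧
      ∀ P < H, (C.card : ℝ) * H ≤ d P β0 := by
  have hHr : (1 : ℝ) ≤ H := by exact_mod_cast hH
  set sl : ℝ := ∑ β ∈ Hb, lo β with hsl
  have hslp : 0 < sl := by
    have : 0 < 32 * (H : ℝ) * (e1 + 40 * μ) := by positivity
    linarith
  set g : ℕ → ℝ := fun P => S P - ∑ β ∈ C, E β * (k P β : ℝ) / kt β with hgdef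
  -- the correction
  have hcor : ∀ P < H, ∀ β ∈ C, |g P * lo β / sl| ≤ lo β * D / (32 * H) := by
    intro P hP β hβ
    have h1 := hg P hP
    have h2 : |g P| * (32 * H) ≤ D * sl := by
      have h3 : |g P| ≤ (e1 + 16 * μ) * D := h1
      have h4 : |g P| ≤ (e1 + 40 * μ) * D := by
        refine h3.trans ?_
        have : e1 + 16 * μ ≤ e1 + 40 * μ := by linarith
        exact mul_le_mul_of_nonneg_right this hD.le
      calc |g P| * (32 * H) ≤ ((e1 + 40 * μ) * D) * (32 * H) :=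
            mul_le_mul_of_nonneg_right h4 (by positivity)
        _ = D * (32 * H * (e1 + 40 * μ)) := by ring
        _ ≤ D * sl := mul_le_mul_of_nonneg_left hb3 hD.le
    rw [abs_div, abs_mul, abs_of_nonneg (hlo0 β hβ), abs_of_pos hslp,
      div_le_div_iff₀ hslp (by positivity)]
    calc |g P| * lo β * (32 * H) = lo β * (|g P| * (32 * H)) := by ring
      _ ≤ lo β * (D * sl) := mul_le_mul_of_nonneg_left h2 (hlo0 β hβ)
      _ = lo β * D * sl := by ring
  have hfrac : ∀ P < H, ∀ β ∈ C, (0 : ℝ) ≤ (k P β : ℝ) / kt β := by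
    intro P hP β hβ; positivity
  have hktr : ∀ β ∈ C, (0 : ℝ) < kt β := by
    intro β hβ
    have := hkt β hβ
    exact_mod_cast this
  set d : ℕ → ℕ → ℝ := fun P β => E β * (k P β : ℝ) / kt β +
    (if β ∈ Hb then g P * lo β / sl else 0) with hd
  -- lower bound on the hub
  have hhub : ∀ P < H, ∀ β ∈ Hb, lo β * D * 0.06 / H ≤ d P β := by
    intro P hP β hβ
    have hβC := hHb hβ
    have h1 := hcor P hP β hβC
    have h2 := (abs_le.1 h1).1
    have h3 : lo β * D / (10 * H) ≤ E β * (k P β : ℝ) / kt β := by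
      have h4 : (kt β : ℝ) ≤ 8 * H * k P β := by exact_mod_cast hb2 β hβ P hP
      rw [div_le_div_iff₀ (by positivity) (hktr β hβC)]
      have h5 := hE1 β hβC
      have h6 : 0 ≤ lo β * D := mul_nonneg (hlo0 β hβC) hD.le
      have hk0 : (0 : ℝ) ≤ k P β := by positivity
      calc lo β * D * kt β ≤ lo β * D * (8 * H * k P β) := mul_le_mul_of_nonneg_left h4 h6
        _ = (0.8 * (lo β * D)) * (k P β * (10 * H)) := by ring
        _ ≤ E β * (k P β * (10 * H)) := mul_le_mul_of_nonneg_right h5 (by positivity)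
        _ = _ := by ring
    simp only [hd, if_pos hβ]
    have h7 : lo β * D / (10 * H) - lo β * D / (32 * H) = lo β * D * (0.06875) / H := by
      field_simp; ring
    have h8 : lo β * D * 0.06 / H ≤ lo β * D * (0.06875) / H := by
      have h6 : 0 ≤ lo β * D := mul_nonneg (hlo0 β hβC) hD.le
      rw [div_le_div_iff_of_pos_right (by positivity)]
      nlinarith
    linarith
  have hup0 : ∀ P < H, ∀ β ∈ C, E β * (k P β : ℝ) / kt β ≤ 1.1 * (ρ2 * ω * D * k P β) := by
    intro P hP β hβ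
    rw [div_le_iff₀ (hktr β hβ)]
    have hk0 : (0 : ℝ) ≤ k P β := by positivity
    calc E β * (k P β : ℝ) ≤ (1.1 * (lo β * D)) * k P β := mul_le_mul_of_nonneg_right (hE2 β hβ) hk0
      _ ≤ (1.1 * (ρ2 * (ω * kt β) * D)) * k P β := by
          refine mul_le_mul_of_nonneg_right ?_ hk0
          refine mul_le_mul_of_nonneg_left ?_ (by norm_num)
          exact mul_le_mul_of_nonneg_right (hlo2 β hβ) hD.le
      _ = _ := by ring
  have hne : Hb.Nonempty := by
    by_contra h0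
    rw [Finset.not_nonempty_iff_eq_empty] at h0
    rw [hsl, h0, Finset.sum_empty] at hslp
    exact lt_irrefl _ hslp
  obtain ⟨β0, hβ0, hmax⟩ := Finset.exists_max_image Hb lo hne
  have hlo0' : sl ≤ C.card * lo β0 := by
    calc sl ≤ ∑ β ∈ Hb, lo β0 := Finset.sum_le_sum hmax
      _ = Hb.card * lo β0 := by rw [Finset.sum_const, nsmul_eq_mul]
      _ ≤ C.card * lo β0 := by
          refine mul_le_mul_of_nonneg_right ?_ (hlo0 β0 (hHb hβ0))
          exact_mod_cast Finset.card_le_card hHb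
  refine ⟨d, β0, hHb hβ0, ?_, ?_, ?_, ?_⟩
  · intro P hP β hβ
    by_cases hβH : β ∈ Hb
    · refine ⟨?_, ?_⟩
      · refine le_trans ?_ (hhub P hP β hβH)
        have h6 : 0 ≤ lo β * D := mul_nonneg (hlo0 β hβ) hD.le
        positivity
      · simp only [hd, if_pos hβH]
        have h1 := hup0 P hP β hβ
        have h2 := (abs_le.1 (hcor P hP β hβ)).2
        have h3 : lo β * D / (32 * H) ≤ 0.25 * (ρ2 * ω * D * k P β) := by
          have h4 : (kt β : ℝ) ≤ 8 * H * k P β := by exact_mod_cast hb2 β hβH P hP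
          rw [div_le_iff₀ (by positivity)]
          calc lo β * D ≤ ρ2 * (ω * kt β) * D := mul_le_mul_of_nonneg_right (hlo2 β hβ) hD.le
            _ = (ρ2 * ω * D) * kt β := by ring
            _ ≤ (ρ2 * ω * D) * (8 * H * k P β) := mul_le_mul_of_nonneg_left h4 (by positivity)
            _ = _ := by ring
        have h5 : 0 ≤ ρ2 * ω * D * k P β := by positivity
        linarith
    · simp only [hd, if_neg hβH, add_zero]
      refine ⟨?_, ?_⟩
      · have h6 : 0 ≤ lo β * D := mul_nonneg (hlo0 β hβ) hD.le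
        have h7 : 0 ≤ E β := by linarith [hE1 β hβ]
        positivity
      · have h1 := hup0 P hP β hβ
        have h5 : 0 ≤ ρ2 * ω * D * k P β := by positivity
        linarith
  · intro P hP
    simp only [hd, Finset.sum_add_distrib]
    rw [← Finset.sum_filter, Finset.filter_mem_eq_inter, Finset.inter_eq_right.2 hHb,
      ← Finset.sum_div, ← Finset.mul_sum, ← hsl, mul_div_cancel_right₀ _ hslp.ne']
    simp only [hgdef]
    ring
  · intro β hβ
    simp only [hd, Finset.sum_add_distrib]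
    have h1 : ∑ P ∈ range H, E β * (k P β : ℝ) / kt β = E β := by
      rw [← Finset.sum_div, ← Finset.mul_sum]
      have : ∑ P ∈ range H, (k P β : ℝ) = kt β := by exact_mod_cast hk β hβ
      rw [this, mul_div_cancel_right₀ _ (hktr β hβ).ne']
    have hg0 : ∑ P ∈ range H, g P = 0 := by
      simp only [hgdef, Finset.sum_sub_distrib]
      rw [Finset.sum_comm, ← hcol, sub_eq_zero]
      refine Finset.sum_congr rfl fun β hβ => ?_
      rw [← Finset.sum_div, ← Finset.mul_sum]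
      have : ∑ P ∈ range H, (k P β : ℝ) = kt β := by exact_mod_cast hk β hβ
      rw [this, mul_div_cancel_right₀ _ (hktr β hβ).ne']
    rw [h1]
    by_cases hβH : β ∈ Hb
    · simp only [if_pos hβH]
      rw [← Finset.sum_div, ← Finset.sum_mul, hg0, zero_mul, zero_div, add_zero]
    · simp only [if_neg hβH, Finset.sum_const_zero, add_zero]
  · intro P hP
    refine le_trans ?_ (hhub P hP β0 hβ0)
    have hc0 : (0 : ℝ) < C.card := by
      have : 0 < C.card := Finset.card_pos.2 ⟨β0, hHb hβ0⟩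
      exact_mod_cast this
    rw [le_div_iff₀ (by positivity)]
    have h1 : 32 * (H : ℝ) * (40 * μ) ≤ C.card * lo β0 := by
      have : 32 * (H : ℝ) * (40 * μ) ≤ 32 * H * (e1 + 40 * μ) := by
        refine mul_le_mul_of_nonneg_left ?_ (by positivity)
        linarith
      linarith
    -- multiply by the cardinality
    refine le_of_mul_le_mul_left ?_ hc0
    calc (C.card : ℝ) * (C.card * H * H) = (C.card * (C.card * H)) * H := by ring
      _ ≤ (60 * (μ * D)) * H := mul_le_mul_of_nonneg_right hbig (by positivity)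
      _ ≤ (32 * (H : ℝ) * (40 * μ)) * (D * 0.06) := by
          have : 0 ≤ μ * D * H := by positivity
          nlinarith
      _ ≤ (C.card * lo β0) * (D * 0.06) := mul_le_mul_of_nonneg_right h1 (by positivity)
      _ = _ := by ring

theorem t_TRM : S_TRM := by
  intro D p s a N π h
  have hs := h.sch
  have haR := h.aR
  have hmR : (1 : ℝ) ≤ s.m := by exact_mod_cast hs.hm
  have hHR : (1 : ℝ) ≤ s.H := by exact_mod_cast hs.hH
  have hBR : (0 : ℝ) ≤ s.B := Nat.cast_nonneg _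
  have hδ := hs.dpos
  have hDn : (0 : ℝ) ≤ D := Nat.cast_nonneg _
  have hX : (8 : ℝ) ≤ (s.m + 2) * (s.B + 2) * (s.H + 2) := by
    have h1 : (2 : ℝ) ≤ s.m + 2 := by linarith
    have h2 : (2 : ℝ) ≤ s.B + 2 := by linarith
    have h3 : (2 : ℝ) ≤ s.H + 2 := by linarith
    calc (8 : ℝ) = 2 * 2 * 2 := by norm_num
      _ ≤ _ := by gcongr
  set X : ℝ := (s.m + 2) * (s.B + 2) * (s.H + 2) with hXdef
  have hbigD : 100 * X ≤ s.δ * D := by
    have := h.big
    rw [hXdef]; linarith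
  have hDδ1 : 1 ≤ s.δ * D := by linarith
  have hD : (0 : ℝ) < D := by
    rcases hDn.lt_or_eq with h0 | h0
    · exact h0
    · rw [← h0, mul_zero] at hDδ1; linarith
  have hsmall : 10 ^ 4 * X * s.δ ≤ s.ρ1 * s.ω := by
    have := hs.small
    rw [hXdef]; linarith
  have hρ1 := hs.rho1
  have hω : 0 < s.ω := by
    have h1 : 0 < s.ρ1 * s.ω := lt_of_lt_of_le (by positivity) hsmall
    exact (mul_pos_iff_of_pos_left hρ1).1 h1
  have hμ : 0 < s.μ := lt_of_lt_of_le hω hs.opos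
  have hρ2 : 0 < s.ρ2 := lt_of_lt_of_le hρ1 hs.rho12
  have hρ1ω : s.ρ1 * s.ω ≤ s.μ / 16 := by
    have h1 : s.ρ1 ≤ 1 / 16 := hs.rho12.trans hs.rho2
    calc s.ρ1 * s.ω ≤ (1 / 16) * s.μ := mul_le_mul h1 hs.opos hω.le (by norm_num)
      _ = _ := by ring
  have hδs : 80000 * s.δ ≤ s.ρ1 * s.ω := by
    refine le_trans ?_ hsmall
    have : (8 : ℝ) * s.δ ≤ X * s.δ := mul_le_mul_of_nonneg_right hX hδ.le
    linarith
  set C := s.cls p a with hC
  have hCB : ∀ β ∈ C, β < s.B := by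
    intro β hβ
    rw [hC] at hβ
    unfold Dat.cls at hβ
    rw [Finset.mem_sdiff, Finset.mem_erase, Finset.mem_filter, Finset.mem_range] at hβ
    exact hβ.1.2.1
  have hCcard : (C.card : ℝ) ≤ s.B := by
    have h1 : C ⊆ range s.B := fun β hβ => Finset.mem_range.2 (hCB β hβ)
    have h2 := Finset.card_le_card h1
    rw [Finset.card_range] at h2
    exact_mod_cast h2
  -- `kt ≥ 1`
  have hsur1 := hs.sur1 a haR
  have hkt1 : ∀ β ∈ C, 1 ≤ s.kt a β := by
    intro β hβ
    by_contra h0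
    have h0' : s.kt a β = 0 := by omega
    have h1 := hsur1 β hβ
    have h2 := hs.lnl β (hCB β hβ)
    unfold Dat.lo at h1
    rw [h0'] at h1
    simp only [Nat.cast_zero, mul_zero, zero_sub] at h1
    have h3 : s.μ + 2 * s.δ ≤ (ln s.st β : ℝ) / D := by
      rw [le_div_iff₀ hD]; linarith
    have h4 : 0 < s.dem D a β := by
      unfold Dat.dem
      split_ifs <;> linarith
    linarith
  have hktr : ∀ β ∈ C, (1 : ℝ) ≤ s.kt a β := by
    intro β hβ
    exact_mod_cast hkt1 β hβ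
  -- sums
  set F : ℕ → Finset ℕ := fun β => (range s.m).filter (fun y => s.φ y a = β) with hF
  have hFcard : ∀ β, (F β).card = s.kt a β := fun β => rfl
  set Sg : ℕ → ℝ := fun β => ∑ y ∈ F β, (N y : ℝ) with hSg
  have hSup : ∀ β, Sg β ≤ s.kt a β * ((s.ω + s.δ) * D) := by
    intro β
    rw [hSg, ← hFcard, ← nsmul_eq_mul]
    refine Finset.sum_le_card_nsmul _ _ _ fun y hy => ?_
    exact h.up y (Finset.mem_range.1 (Finset.mem_filter.1 hy).1)
  have hSlo : ∀ β, s.kt a β * ((1 - s.ρ1 / 8) * s.ω * D - s.δ * D - 1) ≤ Sg β := by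
    intro β
    rw [hSg, ← hFcard, ← nsmul_eq_mul]
    refine Finset.card_nsmul_le_sum _ _ _ fun y hy => ?_
    exact h.lo y (Finset.mem_range.1 (Finset.mem_filter.1 hy).1)
  have hpi := h.pi
  -- the real number `Sg - π`
  have hEup : ∀ β ∈ C, Sg β - π β ≤ 1.1 * (s.lo D a β * D) := by
    intro β hβ
    have h1 := hSup β
    have h2 := (abs_le.1 (hpi β hβ)).1
    have h3 := hsur1 β hβ
    have h4 := hktr β hβ
    have h5 : s.lo D a β = s.ω * s.kt a β - s.dem D a β := rfl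
    set n : ℝ := ((s.kt a β : ℕ) : ℝ) with hn
    have h6 : 80000 * s.δ * n ≤ s.lo D a β := by
      calc 80000 * s.δ * n ≤ s.ρ1 * s.ω * n := mul_le_mul_of_nonneg_right hδs (by linarith)
        _ = s.ρ1 * (s.ω * n) := by ring
        _ ≤ _ := h3
    have h7 : 80000 * s.δ * n * D ≤ s.lo D a β * D := mul_le_mul_of_nonneg_right h6 hD.le
    have h8 : s.δ * D ≤ s.δ * n * D := by
      have : 0 ≤ s.δ * D := by positivity
      nlinarith
    have h9 : s.lo D a β * D = s.ω * n * D - s.dem D a β * D := by rw [h5]; ring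
    have h10 : 0 ≤ s.δ * n * D := by positivity
    nlinarith
  have hElo : ∀ β ∈ C, 0.8 * (s.lo D a β * D) ≤ Sg β - π β := by
    intro β hβ
    have h1 := hSlo β
    have h2 := (abs_le.1 (hpi β hβ)).2
    have h3 := hsur1 β hβ
    have h4 := hktr β hβ
    have h5 : s.lo D a β = s.ω * s.kt a β - s.dem D a β := rfl
    set n : ℝ := ((s.kt a β : ℕ) : ℝ) with hn
    have h6 : 80000 * s.δ * n ≤ s.lo D a β := by
      calc 80000 * s.δ * n ≤ s.ρ1 * s.ω * n := mul_le_mul_of_nonneg_right hδs (by linarith)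
        _ = s.ρ1 * (s.ω * n) := by ring
        _ ≤ _ := h3
    have h7 : 80000 * s.δ * n * D ≤ s.lo D a β * D := mul_le_mul_of_nonneg_right h6 hD.le
    have h8 : s.δ * D ≤ s.δ * n * D := by
      have : 0 ≤ s.δ * D := by positivity
      nlinarith
    have h9 : s.lo D a β * D = s.ω * n * D - s.dem D a β * D := by rw [h5]; ring
    have h10 : 0 ≤ s.δ * n * D := by positivity
    have h11 : n ≤ s.δ * n * D := by nlinarith
    have h12 : s.ρ1 * (s.ω * n) * D ≤ s.lo D a β * D := mul_le_mul_of_nonneg_right h3 hD.le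
    nlinarith
  have hlo0 : ∀ β ∈ C, 0 ≤ s.lo D a β := by
    intro β hβ
    have h3 := hsur1 β hβ
    have h4 := hktr β hβ
    have : 0 ≤ s.ρ1 * (s.ω * s.kt a β) := by positivity
    linarith
  have hle : ∀ β ∈ C, π β ≤ ∑ y ∈ F β, N y := by
    intro β hβ
    have h1 := hElo β hβ
    have h2 : 0 ≤ s.lo D a β * D := mul_nonneg (hlo0 β hβ) hD.le
    have h3 : (π β : ℝ) ≤ ((∑ y ∈ F β, N y : ℕ) : ℝ) := by
      push_cast
      have : Sg β = ∑ y ∈ F β, (N y : ℝ) := rfl
      rw [← this]; linarith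
    exact_mod_cast h3
  set E : ℕ → ℕ := fun β => ∑ y ∈ F β, N y - π β with hE
  have hEr : ∀ β ∈ C, (E β : ℝ) = Sg β - π β := by
    intro β hβ
    rw [hE]
    simp only
    rw [Nat.cast_sub (hle β hβ)]
    push_cast
    rfl
  have hph : ∀ y ∈ range s.m, s.φ y a ∈ C := fun y hy =>
    hs.ph1 y (Finset.mem_range.1 hy) a haR
  have hfib : ∀ (f : ℕ → ℝ), ∑ β ∈ C, ∑ y ∈ F β, f y = ∑ y ∈ range s.m, f y := fun f =>
    Finset.sum_fiberwise_of_maps_to hph f
  have hk : ∀ β ∈ C, ∑ P ∈ range s.H, s.k P a β = s.kt a β := by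
    intro β _
    have h1 : ∀ y ∈ F β, s.part y ∈ range s.H := fun y hy =>
      Finset.mem_range.2 (hs.prt y (Finset.mem_range.1 (Finset.mem_filter.1 hy).1))
    rw [← hFcard β, Finset.card_eq_sum_card_fiberwise h1]
    refine Finset.sum_congr rfl fun P _ => ?_
    unfold Dat.k
    congr 1
    ext y
    simp only [hF, Finset.mem_filter, Finset.mem_range]
    tauto
  have hkle : ∀ β ∈ C, ∀ P < s.H, (s.k P a β : ℝ) ≤ s.kt a β := by
    intro β hβ P hP
    rw [← hk β hβ]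
    push_cast
    exact Finset.single_le_sum (f := fun P => (s.k P a β : ℝ)) (fun _ _ => by positivity)
      (Finset.mem_range.2 hP)
  have hcol : ∑ β ∈ C, (E β : ℝ) = ∑ P ∈ range s.H, ((lab s.st (s.S P a)).card : ℝ) := by
    have h1 : ((∑ y ∈ range s.m, N y : ℕ) : ℝ) =
        ((∑ β ∈ C, π β + ∑ P ∈ range s.H, (lab s.st (s.S P a)).card : ℕ) : ℝ) := by
      exact_mod_cast h.cnt
    push_cast at h1
    rw [Finset.sum_congr rfl hEr, Finset.sum_sub_distrib]
    have h2 := hfib (fun y => (N y : ℝ))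
    simp only [hSg]
    rw [h2, h1]; ring
  have he1 : 0 ≤ s.e1 := (abs_nonneg _).trans (hs.par 0 (by have := hs.hH; omega) a haR)
  -- the row errors
  have hyabs : ∑ y ∈ range s.m, |(N y : ℝ) - s.ω * D| ≤ 15 * s.μ * D + 3 * s.m * s.δ * D := by
    have h1 : ∀ y ∈ range s.m, |(N y : ℝ) - s.ω * D| ≤ 2 * (s.δ * D) - ((N y : ℝ) - s.ω * D) := by
      intro y hy
      have h2 := h.up y (Finset.mem_range.1 hy)
      have h3 : 0 ≤ s.δ * D := by positivity
      rw [abs_le]
      constructor <;> linarith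
    refine (Finset.sum_le_sum h1).trans ?_
    rw [Finset.sum_sub_distrib, Finset.sum_sub_distrib, Finset.sum_const, Finset.sum_const,
      Finset.card_range, nsmul_eq_mul, nsmul_eq_mul]
    have := h.sum
    nlinarith
  have herr : ∑ β ∈ C, |s.lo D a β * D - E β| ≤ 15 * s.μ * D + (3 * s.m + s.B) * s.δ * D := by
    have h1 : ∀ β ∈ C, |s.lo D a β * D - E β| ≤
        ∑ y ∈ F β, |(N y : ℝ) - s.ω * D| + s.δ * D := by
      intro β hβ
      rw [hEr β hβ]
      have h2 : s.lo D a β * D - (Sg β - π β) =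
          -(∑ y ∈ F β, ((N y : ℝ) - s.ω * D)) + ((π β : ℝ) - s.dem D a β * D) := by
        rw [Finset.sum_sub_distrib, Finset.sum_const, hFcard, nsmul_eq_mul]
        have h5 : s.lo D a β = s.ω * s.kt a β - s.dem D a β := rfl
        rw [h5]; simp only [hSg]; ring
      rw [h2]
      refine (abs_add_le _ _).trans ?_
      rw [abs_neg]
      exact add_le_add (Finset.abs_sum_le_sum_abs _ _) (hpi β hβ)
    refine (Finset.sum_le_sum h1).trans ?_
    rw [Finset.sum_add_distrib, hfib, Finset.sum_const, nsmul_eq_mul]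
    have h2 : (C.card : ℝ) * (s.δ * D) ≤ s.B * (s.δ * D) :=
      mul_le_mul_of_nonneg_right hCcard (by positivity)
    linarith
  have h3mB : (3 * s.m + s.B) * s.δ ≤ s.μ := by
    have h1 : (3 * (s.m : ℝ) + s.B) ≤ X := by
      rw [hXdef]
      have h2 : (2 : ℝ) ≤ s.H + 2 := by linarith
      have h3 : (0 : ℝ) ≤ (s.m + 2) * (s.B + 2) := by positivity
      have h4 : (s.m + 2 : ℝ) * (s.B + 2) * 2 ≤ (s.m + 2) * (s.B + 2) * (s.H + 2) :=
        mul_le_mul_of_nonneg_left h2 h3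
      have h5 : (0 : ℝ) ≤ s.m * s.B := by positivity
      nlinarith
    have h6 : (3 * (s.m : ℝ) + s.B) * s.δ ≤ X * s.δ := mul_le_mul_of_nonneg_right h1 hδ.le
    have h7 : 0 ≤ X * s.δ := by positivity
    linarith
  have hg : ∀ P < s.H, |((lab s.st (s.S P a)).card : ℝ) -
      ∑ β ∈ C, (E β : ℝ) * (s.k P a β : ℝ) / s.kt a β| ≤ (s.e1 + 16 * s.μ) * D := by
    intro P hP
    have h1 := hs.par P hP a haR
    have h2 : ((lab s.st (s.S P a)).card : ℝ) -
        ∑ β ∈ C, (E β : ℝ) * (s.k P a β : ℝ) / s.kt a β =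
        -((∑ β ∈ C, s.lo D a β * (s.k P a β : ℝ) / s.kt a β -
          ((lab s.st (s.S P a)).card : ℝ) / D) * D) +
        ∑ β ∈ C, (s.lo D a β * D - E β) * ((s.k P a β : ℝ) / s.kt a β) := by
      rw [sub_mul, Finset.sum_mul, div_mul_cancel₀ _ hD.ne']
      have h3 : ∑ β ∈ C, (s.lo D a β * D - E β) * ((s.k P a β : ℝ) / s.kt a β) =
          ∑ β ∈ C, s.lo D a β * (s.k P a β : ℝ) / s.kt a β * D -
          ∑ β ∈ C, (E β : ℝ) * (s.k P a β : ℝ) / s.kt a β := by
        rw [← Finset.sum_sub_distrib]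
        refine Finset.sum_congr rfl fun β _ => ?_
        ring
      rw [h3]; ring
    rw [h2]
    refine (abs_add_le _ _).trans ?_
    rw [abs_neg, abs_mul, abs_of_pos hD]
    have h4 : |∑ β ∈ C, (s.lo D a β * D - E β) * ((s.k P a β : ℝ) / s.kt a β)| ≤
        ∑ β ∈ C, |s.lo D a β * D - E β| := by
      refine (Finset.abs_sum_le_sum_abs _ _).trans (Finset.sum_le_sum fun β hβ => ?_)
      rw [abs_mul]
      have h5 : |(s.k P a β : ℝ) / s.kt a β| ≤ 1 := by
        rw [abs_of_nonneg (by positivity)]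
        have := hktr β hβ
        rw [div_le_one (by linarith)]
        exact hkle β hβ P hP
      calc |s.lo D a β * D - E β| * |(s.k P a β : ℝ) / s.kt a β|
          ≤ |s.lo D a β * D - E β| * 1 := mul_le_mul_of_nonneg_left h5 (abs_nonneg _)
        _ = _ := mul_one _
    have h6 := h4.trans herr
    have h7 : |∑ β ∈ C, s.lo D a β * (s.k P a β : ℝ) / s.kt a β -
        ((lab s.st (s.S P a)).card : ℝ) / D| * D ≤ s.e1 * D :=
      mul_le_mul_of_nonneg_right h1 hD.le
    have h8 : (3 * s.m + s.B) * s.δ * D ≤ s.μ * D := mul_le_mul_of_nonneg_right h3mB hD.le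
    linarith
  have hbig2 : (C.card : ℝ) * (C.card * s.H) ≤ 60 * (s.μ * D) := by
    have h1 : (C.card : ℝ) * (C.card * s.H) ≤ s.B * (s.B * s.H) := by gcongr
    have h2 : (s.B : ℝ) * (s.B * s.H) ≤ X * X := by
      have h4 : (1 : ℝ) ≤ s.m + 2 := by linarith
      have h3 : (s.B : ℝ) ≤ X := by
        rw [hXdef]
        calc (s.B : ℝ) = 1 * s.B * 1 := by ring
          _ ≤ (s.m + 2) * (s.B + 2) * (s.H + 2) := by
            have e1 : (s.B : ℝ) ≤ s.B + 2 := by linarith
            have e2 : (1 : ℝ) ≤ s.H + 2 := by linarith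
            gcongr
      have h5 : (s.B : ℝ) * s.H ≤ X := by
        rw [hXdef]
        calc (s.B : ℝ) * s.H = 1 * s.B * s.H := by ring
          _ ≤ (s.m + 2) * (s.B + 2) * (s.H + 2) := by
            have e1 : (s.B : ℝ) ≤ s.B + 2 := by linarith
            have e2 : (s.H : ℝ) ≤ s.H + 2 := by linarith
            gcongr
      exact mul_le_mul h3 h5 (by positivity) (by linarith)
    have h7 : 10 ^ 4 * X * (s.δ * D) ≤ s.ρ1 * s.ω * D := by
      calc 10 ^ 4 * X * (s.δ * D) = (10 ^ 4 * X * s.δ) * D := by ring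
        _ ≤ _ := mul_le_mul_of_nonneg_right hsmall hD.le
    have h8 : X * (100 * X) ≤ X * (s.δ * D) := mul_le_mul_of_nonneg_left hbigD (by linarith)
    have h9 : s.ρ1 * s.ω * D ≤ s.μ / 16 * D := mul_le_mul_of_nonneg_right hρ1ω hD.le
    have h10 : 0 ≤ X * X := by positivity
    have h11 : 0 ≤ s.μ * D := by positivity
    linarith
  obtain ⟨d, β0, hβ0, c1, c2, c3, c4⟩ := trm_core C (s.Hb a) (hs.hb1 a haR) s.H hs.hH
    (fun P β => s.k P a β) (fun β => s.kt a β) (fun β => s.lo D a β) (fun β => (E β : ℝ))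
    (fun P => ((lab s.st (s.S P a)).card : ℝ)) D s.ω s.μ s.ρ2 s.e1 hD hω hμ hρ2 he1 hkt1 hk hlo0
    (hs.sur2 a haR) (fun β hβ => by rw [hEr β hβ]; exact hElo β hβ)
    (fun β hβ => by rw [hEr β hβ]; exact hEup β hβ) hg hcol (hs.hb2 a haR) (hs.hb3 a haR) hbig2
  exact ⟨E, d, β0, hβ0, fun β hβ => (Nat.add_sub_cancel' (hle β hβ)).symm, c1, c2, c3, c4⟩

end Pool.Agent.H68.HW
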