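import Pool.Agent.H65.HW.Tools

/-!
# Project HW, part HAL2: a system of distinct representatives from degrees
-/

set_option autoImplicit false
open Classical Finset

namespace Pool.Agent.H68.HW

open Pool.Agent.H65.HW

theorem t_HAL2 : S_HAL2 := by
  intro X Y P Q R d hd hP hQ hY
  obtain ⟨y0⟩ := hY
  have hall : ∀ s : Finset {x // x ∈ P}, s.card ≤
      (s.biUnion fun x => Q.filter (fun y => R x.1 y)).card := by
    intro s
    set T := s.biUnion fun x => Q.filter (fun y => R x.1 y) with hT
    have h := Finset.card_mul_le_card_mul (s := s) (t := T) (m := d) (n := d)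
      (fun (x : {x // x ∈ P}) y => R x.1 y) ?_ ?_
    · exact Nat.le_of_mul_le_mul_right h (by omega)
    · intro x hx
      refine (hP x.1 x.2).trans (Finset.card_le_card ?_)
      intro y hy
      rw [Finset.mem_filter] at hy
      rw [Finset.bipartiteAbove, Finset.mem_filter, hT, Finset.mem_biUnion]
      exact ⟨⟨x, hx, by rw [Finset.mem_filter]; exact hy⟩, hy.2⟩
    · intro y hy
      rw [hT, Finset.mem_biUnion] at hy
      obtain ⟨x, _, hyx⟩ := hy
      rw [Finset.mem_filter] at hyx
      refine le_trans ?_ (hQ y hyx.1)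
      rw [Finset.bipartiteBelow, ← Finset.card_map (Function.Embedding.subtype _)]
      apply Finset.card_le_card
      intro z hz
      rw [Finset.mem_map] at hz
      obtain ⟨w, hw, rfl⟩ := hz
      rw [Finset.mem_filter] at hw ⊢
      exact ⟨w.2, hw.2⟩
  obtain ⟨f, hf, hf2⟩ := (Finset.all_card_le_biUnion_card_iff_exists_injective
    (fun x : {x // x ∈ P} => Q.filter (fun y => R x.1 y))).mp hall
  refine ⟨fun x => if h : x ∈ P then f ⟨x, h⟩ else y0, ?_, ?_⟩
  · intro x hx
    simp only [dif_pos hx]
    have := hf2 ⟨x, hx⟩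
    rw [Finset.mem_filter] at this
    exact this
  · intro x hx x' hx' h
    simp only [dif_pos hx, dif_pos hx'] at h
    have := hf h
    exact congrArg Subtype.val this

end Pool.Agent.H68.HW
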