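import Pool.Agent.H65.HW.Tools

/-!
# Project HW, part RND: rounding of the edge weights of a bipartite graph

Minimal number of fractional items (edges and sums at `Q`), kernel of the incidence map, move until a
constraint becomes tight.
-/

set_option autoImplicit false
open Classical Finset

namespace Pool.Agent.H68.HW

open Pool.Agent.H65.HW Pool.Agent.H21.HV

/-- `r` is an integer -/
def IsI (r : ℝ) : Prop := ∃ k : ℤ, r = k

theorem isI_floor_lt {r : ℝ} (h : ¬ IsI r) : (⌊r⌋ : ℝ) < r :=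
  lt_of_le_of_ne (Int.floor_le r) fun e => h ⟨_, e.symm⟩

theorem isI_lt_ceil {r : ℝ} (h : ¬ IsI r) : r < (⌈r⌉ : ℝ) :=
  lt_of_le_of_ne (Int.le_ceil r) fun e => h ⟨_, e⟩

/-- moving until something becomes tight -/
theorem move {ι : Type} (s : Finset ι) (v d a b : ι → ℝ) (h : ∀ i ∈ s, a i < v i ∧ v i < b i)
    (hd : ∃ i ∈ s, d i ≠ 0) :
    ∃ t : ℝ, (∀ i ∈ s, a i ≤ v i + t * d i ∧ v i + t * d i ≤ b i) ∧
      ∃ i ∈ s, v i + t * d i = a i ∨ v i + t * d i = b i := by
  set τ : ι → ℝ := fun i => if 0 < d i then (b i - v i) / d i else (a i - v i) / d i with hτ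
  have hne : (s.filter fun i => d i ≠ 0).Nonempty := by
    obtain ⟨i, hi, hdi⟩ := hd
    exact ⟨i, Finset.mem_filter.mpr ⟨hi, hdi⟩⟩
  obtain ⟨i0, hi0, hmin⟩ := Finset.exists_min_image _ τ hne
  rw [Finset.mem_filter] at hi0
  have hτpos : ∀ i ∈ s, d i ≠ 0 → 0 < τ i := by
    intro i hi hdi
    simp only [hτ]
    by_cases h0 : 0 < d i
    · rw [if_pos h0]
      exact div_pos (by linarith [(h i hi).2]) h0
    · rw [if_neg h0]
      have : d i < 0 := lt_of_le_of_ne (not_lt.mp h0) hdi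
      exact div_pos_of_neg_of_neg (by linarith [(h i hi).1]) this
  refine ⟨τ i0, ?_, i0, hi0.1, ?_⟩
  · intro i hi
    have ht := hτpos i0 hi0.1 hi0.2
    have hb := h i hi
    rcases lt_trichotomy (d i) 0 with h0 | h0 | h0
    · have h1 := hmin i (Finset.mem_filter.mpr ⟨hi, h0.ne⟩)
      have h2 : τ i = (a i - v i) / d i := by simp only [hτ]; rw [if_neg (not_lt.mpr h0.le)]
      rw [h2, le_div_iff_of_neg h0] at h1
      constructor
      · linarith
      · nlinarith
    · rw [h0, mul_zero, add_zero]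
      exact ⟨hb.1.le, hb.2.le⟩
    · have h1 := hmin i (Finset.mem_filter.mpr ⟨hi, h0.ne'⟩)
      have h2 : τ i = (b i - v i) / d i := by simp only [hτ]; rw [if_pos h0]
      rw [h2, le_div_iff₀ h0] at h1
      constructor
      · nlinarith
      · linarith
  · by_cases h0 : 0 < d i0
    · right
      have h2 : τ i0 = (b i0 - v i0) / d i0 := by simp only [hτ]; rw [if_pos h0]
      rw [h2, div_mul_cancel₀ _ hi0.2]
      ring
    · left
      have h2 : τ i0 = (a i0 - v i0) / d i0 := by simp only [hτ]; rw [if_neg h0]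
      rw [h2, div_mul_cancel₀ _ hi0.2]
      ring

/-- a sum which is an integer cannot have exactly one fractional term -/
theorem two_frac {ι : Type} (s : Finset ι) (f : ι → ℝ) (hf : ∀ i ∈ s, 0 ≤ f i ∧ f i ≤ 1)
    (hs : IsI (∑ i ∈ s, f i)) (i : ι) (hi : i ∈ s) (hfi : f i ≠ 0 ∧ f i ≠ 1) :
    2 ≤ (s.filter fun j => f j ≠ 0 ∧ f j ≠ 1).card := by
  by_contra hcon
  have hcard : (s.filter fun j => f j ≠ 0 ∧ f j ≠ 1).card ≤ 1 := by omega
  have hothers : ∀ j ∈ s.erase i, f j = 0 ∨ f j = 1 := by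
    intro j hj
    rw [Finset.mem_erase] at hj
    by_contra hc
    rw [not_or] at hc
    have := Finset.card_le_one.mp hcard i (Finset.mem_filter.mpr ⟨hi, hfi⟩) j
      (Finset.mem_filter.mpr ⟨hj.2, hc⟩)
    exact hj.1 this.symm
  have hsum : ∑ j ∈ s.erase i, f j = ((s.erase i).filter fun j => f j = 1).card := by
    rw [Finset.card_filter]
    push_cast
    apply Finset.sum_congr rfl
    intro j hj
    rcases hothers j hj with h | h
    · rw [h]; simp
    · rw [h]; simp
  obtain ⟨k, hk⟩ := hs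
  rw [← Finset.add_sum_erase s f hi, hsum] at hk
  have h1 : f i = ((k - (((s.erase i).filter fun j => f j = 1).card : ℤ) : ℤ) : ℝ) := by
    push_cast
    linarith
  have h0 := hf i hi
  have h2 : (0 : ℝ) < ((k - (((s.erase i).filter fun j => f j = 1).card : ℤ) : ℤ) : ℝ) := by
    rw [← h1]; exact lt_of_le_of_ne h0.1 (Ne.symm hfi.1)
  have h3 : ((k - (((s.erase i).filter fun j => f j = 1).card : ℤ) : ℤ) : ℝ) < 1 := by
    rw [← h1]; exact lt_of_le_of_ne h0.2 hfi.2
  have h4 : 0 < k - (((s.erase i).filter fun j => f j = 1).card : ℤ) := by exact_mod_cast h2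
  have h5 : k - (((s.erase i).filter fun j => f j = 1).card : ℤ) < 1 := by exact_mod_cast h3
  omega

/-- The kernel of the incidence map: `E` a set of pairs, all degrees on the left at least `2`, all
degrees on the right in `T` at least `2`. Then there is a nonzero function on `E` with vanishing
sums on the left and at the points of `T`. -/
theorem kernel {V : Type} (E : Finset (V × V)) (T : Finset V) (hE : E.Nonempty)
    (hL : ∀ z ∈ E.image Prod.fst, 2 ≤ (E.filter fun e => e.1 = z).card)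
    (hT : T ⊆ E.image Prod.snd) (hR : ∀ u ∈ T, 2 ≤ (E.filter fun e => e.2 = u).card) :
    ∃ δ : V × V → ℝ, (∀ e, e ∉ E → δ e = 0) ∧ (∃ e ∈ E, δ e ≠ 0) ∧
      (∀ z, ∑ e ∈ E.filter (fun e => e.1 = z), δ e = 0) ∧
      (∀ u ∈ T, ∑ e ∈ E.filter (fun e => e.2 = u), δ e = 0) := by
  set A := E.image Prod.fst with hA
  set B := E.image Prod.snd with hB
  have cA : E.card = ∑ z ∈ A, (E.filter fun e => e.1 = z).card :=
    Finset.card_eq_sum_card_fiberwise fun e he => Finset.mem_image_of_mem _ he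
  have cB : E.card = ∑ u ∈ B, (E.filter fun e => e.2 = u).card :=
    Finset.card_eq_sum_card_fiberwise fun e he => Finset.mem_image_of_mem _ he
  have hA2 : 2 * A.card ≤ E.card := by
    rw [cA, mul_comm, ← smul_eq_mul]
    exact Finset.card_nsmul_le_sum _ _ _ hL
  have hB2 : 2 * T.card + (B \ T).card ≤ E.card := by
    rw [cB, ← Finset.sum_sdiff hT]
    have e1 : (B \ T).card ≤ ∑ u ∈ B \ T, (E.filter fun e => e.2 = u).card := by
      have := Finset.card_nsmul_le_sum (B \ T) (fun u => (E.filter fun e => e.2 = u).card) 1 ?_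
      · simpa using this
      · intro u hu
        have hu' := (Finset.mem_sdiff.mp hu).1
        rw [hB, Finset.mem_image] at hu'
        obtain ⟨e, he, heu⟩ := hu'
        exact Finset.card_pos.mpr ⟨e, Finset.mem_filter.mpr ⟨he, heu⟩⟩
    have e2 : 2 * T.card ≤ ∑ u ∈ T, (E.filter fun e => e.2 = u).card := by
      have := Finset.card_nsmul_le_sum T (fun u => (E.filter fun e => e.2 = u).card) 2 hR
      rw [smul_eq_mul] at this
      omega
    omega
  -- the set of left constraints which is used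
  obtain ⟨A', hA'card, hA'⟩ : ∃ A' : Finset V, A'.card + T.card < E.card ∧
      ∀ δ : V × V → ℝ, (∀ z ∈ A', ∑ e ∈ E.filter (fun e => e.1 = z), δ e = 0) →
        (∀ u ∈ T, ∑ e ∈ E.filter (fun e => e.2 = u), δ e = 0) →
        ∀ z ∈ A, ∑ e ∈ E.filter (fun e => e.1 = z), δ e = 0 := by
    by_cases hBT : (B \ T).card = 0
    · obtain ⟨e0, he0⟩ := hE
      have hz0 : e0.1 ∈ A := Finset.mem_image_of_mem _ he0
      refine ⟨A.erase e0.1, ?_, ?_⟩
      · have h1 := Finset.card_erase_of_mem hz0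
        have h2 : 0 < A.card := Finset.card_pos.mpr ⟨_, hz0⟩
        omega
      · intro δ h1 h2 z hz
        by_cases hzz : z = e0.1
        · have hBT' : B = T := by
            rw [Finset.card_eq_zero, Finset.sdiff_eq_empty_iff_subset] at hBT
            exact Finset.Subset.antisymm hBT hT
          have s1 : ∑ e ∈ E, δ e = ∑ z ∈ A, ∑ e ∈ E.filter (fun e => e.1 = z), δ e :=
            (Finset.sum_fiberwise_of_maps_to (fun e he => Finset.mem_image_of_mem _ he) _).symm
          have s2 : ∑ e ∈ E, δ e = ∑ u ∈ B, ∑ e ∈ E.filter (fun e => e.2 = u), δ e :=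
            (Finset.sum_fiberwise_of_maps_to (fun e he => Finset.mem_image_of_mem _ he) _).symm
          rw [hBT', Finset.sum_eq_zero h2] at s2
          rw [s2, ← Finset.add_sum_erase A _ hz0, Finset.sum_eq_zero h1, add_zero] at s1
          rw [hzz]
          exact s1.symm
        · exact h1 z (Finset.mem_erase.mpr ⟨hzz, hz⟩)
    · refine ⟨A, by omega, fun δ h1 _ => h1⟩
  -- the linear map
  let φ : ({e // e ∈ E} → ℝ) →ₗ[ℝ] (({z // z ∈ A'} ⊕ {u // u ∈ T}) → ℝ) :=
    { toFun := fun x c => match c with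
        | Sum.inl z => ∑ e : {e // e ∈ E}, if e.1.1 = z.1 then x e else 0
        | Sum.inr u => ∑ e : {e // e ∈ E}, if e.1.2 = u.1 then x e else 0
      map_add' := by
        intro x y
        funext c
        rcases c with z | u
        · simp only [Pi.add_apply]
          rw [← Finset.sum_add_distrib]
          refine Finset.sum_congr rfl fun e _ => ?_
          split_ifs <;> simp
        · simp only [Pi.add_apply]
          rw [← Finset.sum_add_distrib]
          refine Finset.sum_congr rfl fun e _ => ?_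
          split_ifs <;> simp
      map_smul' := by
        intro r x
        funext c
        rcases c with z | u
        · simp only [Pi.smul_apply, smul_eq_mul, RingHom.id_apply]
          rw [Finset.mul_sum]
          refine Finset.sum_congr rfl fun e _ => ?_
          split_ifs <;> simp
        · simp only [Pi.smul_apply, smul_eq_mul, RingHom.id_apply]
          rw [Finset.mul_sum]
          refine Finset.sum_congr rfl fun e _ => ?_
          split_ifs <;> simp }
  have hker : LinearMap.ker φ ≠ ⊥ := by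
    apply LinearMap.ker_ne_bot_of_finrank_lt
    rw [Module.finrank_fintype_fun_eq_card, Module.finrank_fintype_fun_eq_card,
      Fintype.card_sum, Fintype.card_coe, Fintype.card_coe, Fintype.card_coe]
    exact hA'card
  obtain ⟨x, hx, hx0⟩ := Submodule.exists_mem_ne_zero_of_ne_bot hker
  rw [LinearMap.mem_ker] at hx
  set δ : V × V → ℝ := fun e => if h : e ∈ E then x ⟨e, h⟩ else 0 with hδ
  have hδE : ∀ (Q : V × V → Prop), ∑ e ∈ E.filter Q, δ e =
      ∑ e : {e // e ∈ E}, if Q e.1 then x e else 0 := by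
    intro Q
    rw [Finset.sum_filter, ← Finset.sum_coe_sort E]
    refine Finset.sum_congr rfl fun e _ => ?_
    simp only [hδ, dif_pos e.2]
  have h1 : ∀ z ∈ A', ∑ e ∈ E.filter (fun e => e.1 = z), δ e = 0 := by
    intro z hz
    rw [hδE]
    exact congrFun hx (Sum.inl ⟨z, hz⟩)
  have h2 : ∀ u ∈ T, ∑ e ∈ E.filter (fun e => e.2 = u), δ e = 0 := by
    intro u hu
    rw [hδE]
    exact congrFun hx (Sum.inr ⟨u, hu⟩)
  refine ⟨δ, fun e he => dif_neg he, ?_, ?_, h2⟩
  · by_contra hcon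
    push Not at hcon
    apply hx0
    funext e
    have := hcon e.1 e.2
    simp only [hδ, dif_pos e.2] at this
    exact this
  · intro z
    by_cases hz : z ∈ A
    · exact hA' δ h1 h2 z hz
    · apply Finset.sum_eq_zero
      intro e he
      rw [Finset.mem_filter] at he
      exact absurd (he.2 ▸ Finset.mem_image_of_mem Prod.fst he.1) hz

section Main

variable {V : Type} [Fintype V] (Γ : SimpleGraph V) (P Q : Finset V)

/-- fractional edges -/
noncomputable def Ef (w : V → V → ℝ) : Finset (V × V) :=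
  univ.filter fun e => e.1 ∈ P ∧ Γ.Adj e.1 e.2 ∧ w e.1 e.2 ≠ 0 ∧ w e.1 e.2 ≠ 1

/-- sum at `u` -/
noncomputable def Sm (w : V → V → ℝ) (u : V) : ℝ := ∑ z ∈ univ.filter (fun z => Γ.Adj z u), w z u

/-- the points of `Q` with a fractional sum -/
noncomputable def NT (w : V → V → ℝ) : Finset V := Q.filter fun u => ¬ IsI (Sm Γ w u)

theorem card_one {ι : Type} (s : Finset ι) (f : ι → ℝ) (hf : ∀ i ∈ s, f i = 0 ∨ f i = 1) :
    ((s.filter fun i => f i = 1).card : ℝ) = ∑ i ∈ s, f i := by
  rw [Finset.card_filter]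
  push_cast
  apply Finset.sum_congr rfl
  intro j hj
  rcases hf j hj with h | h
  · rw [h]; simp
  · rw [h]; simp

theorem sum_right (w : V → V → ℝ) (δ : V × V → ℝ) (hδ : ∀ e, e ∉ Ef Γ P w → δ e = 0) (u : V) :
    ∑ z ∈ univ.filter (fun z => Γ.Adj z u), δ (z, u) =
      ∑ e ∈ (Ef Γ P w).filter (fun e => e.2 = u), δ e := by
  have h1 : ∑ z ∈ univ.filter (fun z => Γ.Adj z u), δ (z, u) = ∑ z : V, δ (z, u) := by
    apply Finset.sum_subset (Finset.filter_subset _ _)
    intro z _ hz
    apply hδ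
    intro he
    rw [Ef, Finset.mem_filter] at he
    exact hz (Finset.mem_filter.mpr ⟨Finset.mem_univ _, he.2.2.1⟩)
  have h2 : ∑ e ∈ (Ef Γ P w).filter (fun e => e.2 = u), δ e =
      ∑ e ∈ (univ : Finset (V × V)).filter (fun e => e.2 = u), δ e := by
    apply Finset.sum_subset (Finset.filter_subset_filter _ (Finset.subset_univ _))
    intro e he hne
    apply hδ
    intro hE
    exact hne (Finset.mem_filter.mpr ⟨hE, (Finset.mem_filter.mp he).2⟩)
  rw [h1, h2, Finset.sum_filter, Fintype.sum_prod_type]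
  refine Finset.sum_congr rfl fun z _ => ?_
  simp

theorem sum_left (w : V → V → ℝ) (δ : V × V → ℝ) (hδ : ∀ e, e ∉ Ef Γ P w → δ e = 0) (z : V) :
    ∑ u ∈ univ.filter (fun u => Γ.Adj z u), δ (z, u) =
      ∑ e ∈ (Ef Γ P w).filter (fun e => e.1 = z), δ e := by
  have h1 : ∑ u ∈ univ.filter (fun u => Γ.Adj z u), δ (z, u) = ∑ u : V, δ (z, u) := by
    apply Finset.sum_subset (Finset.filter_subset _ _)
    intro u _ hu
    apply hδ
    intro he
    rw [Ef, Finset.mem_filter] at he
    exact hu (Finset.mem_filter.mpr ⟨Finset.mem_univ _, he.2.2.1⟩)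
  have h2 : ∑ e ∈ (Ef Γ P w).filter (fun e => e.1 = z), δ e =
      ∑ e ∈ (univ : Finset (V × V)).filter (fun e => e.1 = z), δ e := by
    apply Finset.sum_subset (Finset.filter_subset_filter _ (Finset.subset_univ _))
    intro e he hne
    apply hδ
    intro hE
    exact hne (Finset.mem_filter.mpr ⟨hE, (Finset.mem_filter.mp he).2⟩)
  rw [h1, h2, Finset.sum_filter, Fintype.sum_prod_type, Finset.sum_comm]
  refine Finset.sum_congr rfl fun u _ => ?_
  simp

/-- the graph of the edges of weight `1` -/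
def Lam (w : V → V → ℝ) : SimpleGraph V where
  Adj a b := Γ.Adj a b ∧ ((a ∈ P ∧ w a b = 1) ∨ (b ∈ P ∧ w b a = 1))
  symm := ⟨fun _ _ h => ⟨h.1.symm, h.2.symm⟩⟩
  loopless := ⟨fun a h => Γ.loopless.irrefl a h.1⟩

/-- the invariant -/
def Inv (y : V → V → ℝ) (n : V → ℕ) (w : V → V → ℝ) : Prop :=
  (∀ z u, 0 ≤ w z u ∧ w z u ≤ 1) ∧
  (∀ z ∈ P, ∑ u ∈ univ.filter (fun u => Γ.Adj z u), w z u = n z) ∧
  ∀ u ∈ Q, (⌊Sm Γ y u⌋ : ℝ) ≤ Sm Γ w u ∧ Sm Γ w u ≤ (⌈Sm Γ y u⌉ : ℝ)

theorem base (hB : Bip Γ P Q) (y : V → V → ℝ) (n : V → ℕ) (w : V → V → ℝ)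
    (hw : Inv Γ P Q y n w) (hE : Ef Γ P w = ∅) :
    ∃ Λ : SimpleGraph V, Λ ≤ Γ ∧ (∀ z ∈ P, nb Λ univ z = n z) ∧
      ∀ u ∈ Q, |(nb Λ univ u : ℝ) - Sm Γ y u| < 1 := by
  obtain ⟨hdis, hbip⟩ := hB
  have hPQ : ∀ x, x ∈ P → x ∈ Q → False := fun x h1 h2 => Finset.disjoint_left.mp hdis h1 h2
  have h01 : ∀ z ∈ P, ∀ u, Γ.Adj z u → w z u = 0 ∨ w z u = 1 := by
    intro z hz u hzu
    by_contra hcon
    rw [not_or] at hcon
    have : (z, u) ∈ Ef Γ P w := Finset.mem_filter.mpr ⟨Finset.mem_univ _, hz, hzu, hcon⟩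
    rw [hE] at this
    exact Finset.notMem_empty _ this
  refine ⟨Lam Γ P w, ?_, ?_, ?_⟩
  · intro a b h
    exact h.1
  · intro z hz
    have h1 : (nb (Lam Γ P w) univ z) =
        ((univ.filter (fun u => Γ.Adj z u)).filter fun u => w z u = 1).card := by
      unfold nb
      rw [Finset.filter_filter]
      congr 1
      ext u
      simp only [Finset.mem_filter, Finset.mem_univ, true_and]
      constructor
      · rintro ⟨h1, h2 | h2⟩
        · exact ⟨h1, h2.2⟩
        · exfalso
          rcases hbip z u h1 with h3 | h3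
          · exact hPQ u h2.1 h3.2
          · exact hPQ z hz h3.1
      · rintro ⟨h1, h2⟩
        exact ⟨h1, Or.inl ⟨hz, h2⟩⟩
    rw [h1]
    have h2 := card_one (univ.filter (fun u => Γ.Adj z u)) (fun u => w z u)
      (fun u hu => h01 z hz u (Finset.mem_filter.mp hu).2)
    rw [hw.2.1 z hz] at h2
    exact_mod_cast h2
  · intro u hu
    have h1 : (nb (Lam Γ P w) univ u) =
        ((univ.filter (fun z => Γ.Adj z u)).filter fun z => w z u = 1).card := by
      unfold nb
      rw [Finset.filter_filter]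
      congr 1
      ext z
      simp only [Finset.mem_filter, Finset.mem_univ, true_and]
      constructor
      · rintro ⟨h1, h2 | h2⟩
        · exact absurd hu fun h => hPQ u h2.1 h
        · exact ⟨h1.symm, h2.2⟩
      · rintro ⟨h1, h2⟩
        refine ⟨h1.symm, Or.inr ⟨?_, h2⟩⟩
        rcases hbip z u h1 with h3 | h3
        · exact h3.1
        · exact absurd hu fun h => hPQ u h3.2 h
    rw [h1]
    have h2 := card_one (univ.filter (fun z => Γ.Adj z u)) (fun z => w z u)
      (fun z hz => by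
        have hz' := (Finset.mem_filter.mp hz).2
        refine h01 z ?_ u hz'
        rcases hbip z u hz' with h3 | h3
        · exact h3.1
        · exact absurd hu fun h => hPQ u h3.2 h)
    obtain ⟨h3, h4⟩ := hw.2.2 u hu
    unfold Sm at h3 h4 ⊢
    rw [← h2] at h3 h4
    have h5 := Int.lt_floor_add_one (∑ z ∈ univ.filter (fun z => Γ.Adj z u), y z u)
    have h6 := Int.ceil_lt_add_one (∑ z ∈ univ.filter (fun z => Γ.Adj z u), y z u)
    rw [abs_lt]
    constructor
    · linarith
    · linarith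

theorem step (hB : Bip Γ P Q) (y : V → V → ℝ) (n : V → ℕ) (w : V → V → ℝ)
    (hw : Inv Γ P Q y n w) (hE : (Ef Γ P w).Nonempty) :
    ∃ w' : V → V → ℝ, Inv Γ P Q y n w' ∧
      (Ef Γ P w').card + (NT Γ Q w').card < (Ef Γ P w).card + (NT Γ Q w).card := by
  obtain ⟨hdis, hbip⟩ := hB
  have hPQ : ∀ x, x ∈ P → x ∈ Q → False := fun x h1 h2 => Finset.disjoint_left.mp hdis h1 h2
  obtain ⟨hw1, hw2, hw3⟩ := hw
  have hmem : ∀ e, e ∈ Ef Γ P w ↔ e.1 ∈ P ∧ Γ.Adj e.1 e.2 ∧ w e.1 e.2 ≠ 0 ∧ w e.1 e.2 ≠ 1 := by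
    intro e
    rw [Ef, Finset.mem_filter]
    simp
  have hEQ : ∀ e ∈ Ef Γ P w, e.2 ∈ Q := by
    intro e he
    rw [hmem] at he
    rcases hbip _ _ he.2.1 with h | h
    · exact h.2
    · exact absurd h.1 fun h => hPQ _ he.1 h
  have hadjP : ∀ u ∈ Q, ∀ z, Γ.Adj z u → z ∈ P := by
    intro u hu z hz
    rcases hbip _ _ hz with h | h
    · exact h.1
    · exact absurd hu fun h' => hPQ _ h.2 h'
  obtain ⟨δ, hδ0, ⟨e0, he0, hδe0⟩, hδL, hδR⟩ := kernel (Ef Γ P w)
    (((Ef Γ P w).image Prod.snd).filter fun u => IsI (Sm Γ w u)) hE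
    (by
      intro z hz
      rw [Finset.mem_image] at hz
      obtain ⟨e, he, rfl⟩ := hz
      have he' := (hmem e).mp he
      have h1 := two_frac (univ.filter (fun u => Γ.Adj e.1 u)) (fun u => w e.1 u)
        (fun u _ => hw1 _ _) ⟨(n e.1 : ℤ), by rw [hw2 _ he'.1]; simp⟩ e.2
        (Finset.mem_filter.mpr ⟨Finset.mem_univ _, he'.2.1⟩) he'.2.2
      refine h1.trans ?_
      rw [← Finset.card_image_of_injective _ (Prod.mk_right_injective e.1)]
      apply Finset.card_le_card
      intro x hx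
      rw [Finset.mem_image] at hx
      obtain ⟨u, hu, rfl⟩ := hx
      rw [Finset.mem_filter, Finset.mem_filter] at hu
      rw [Finset.mem_filter, hmem]
      exact ⟨⟨he'.1, hu.1.2, hu.2⟩, rfl⟩)
    (Finset.filter_subset _ _)
    (by
      intro u hu
      rw [Finset.mem_filter, Finset.mem_image] at hu
      obtain ⟨⟨e, he, rfl⟩, hI⟩ := hu
      have he' := (hmem e).mp he
      have h1 := two_frac (univ.filter (fun z => Γ.Adj z e.2)) (fun z => w z e.2)
        (fun z _ => hw1 _ _) hI e.1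
        (Finset.mem_filter.mpr ⟨Finset.mem_univ _, he'.2.1⟩) he'.2.2
      refine h1.trans ?_
      rw [← Finset.card_image_of_injective _ (Prod.mk_left_injective e.2)]
      apply Finset.card_le_card
      intro x hx
      rw [Finset.mem_image] at hx
      obtain ⟨z, hz, rfl⟩ := hx
      rw [Finset.mem_filter, Finset.mem_filter] at hz
      rw [Finset.mem_filter, hmem]
      exact ⟨⟨hadjP _ (hEQ e he) z hz.1.2, hz.1.2, hz.2⟩, rfl⟩)
  -- the slopes at the points of `Q`
  set σ : V → ℝ := fun u => ∑ z ∈ univ.filter (fun z => Γ.Adj z u), δ (z, u) with hσ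
  have hσ0 : ∀ u ∈ Q, u ∉ NT Γ Q w → σ u = 0 := by
    intro u hu hnt
    have hI : IsI (Sm Γ w u) := by
      by_contra hI
      exact hnt (Finset.mem_filter.mpr ⟨hu, hI⟩)
    simp only [hσ]
    rw [sum_right Γ P w δ hδ0 u]
    by_cases hu' : u ∈ (Ef Γ P w).image Prod.snd
    · exact hδR u (Finset.mem_filter.mpr ⟨hu', hI⟩)
    · apply Finset.sum_eq_zero
      intro e he
      rw [Finset.mem_filter] at he
      exact absurd (he.2 ▸ Finset.mem_image_of_mem Prod.snd he.1) hu'
  obtain ⟨t, ht1, i, hi, hti⟩ := move ((Ef Γ P w).disjSum (NT Γ Q w))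
    (Sum.elim (fun e => w e.1 e.2) (fun u => Sm Γ w u)) (Sum.elim δ σ)
    (Sum.elim (fun _ => 0) (fun u => (⌊Sm Γ w u⌋ : ℝ)))
    (Sum.elim (fun _ => 1) (fun u => (⌈Sm Γ w u⌉ : ℝ)))
    (by
      intro i hi
      rcases i with e | u
      · rw [Finset.inl_mem_disjSum, hmem] at hi
        simp only [Sum.elim_inl]
        have := hw1 e.1 e.2
        exact ⟨lt_of_le_of_ne this.1 (Ne.symm hi.2.2.1), lt_of_le_of_ne this.2 hi.2.2.2⟩
      · rw [Finset.inr_mem_disjSum, NT, Finset.mem_filter] at hi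
        simp only [Sum.elim_inr]
        exact ⟨isI_floor_lt hi.2, isI_lt_ceil hi.2⟩)
    ⟨Sum.inl e0, by rw [Finset.inl_mem_disjSum]; exact he0, by simpa using hδe0⟩
  set w' : V → V → ℝ := fun z u => w z u + t * δ (z, u) with hw'
  have hsame : ∀ z u, (z, u) ∉ Ef Γ P w → w' z u = w z u := by
    intro z u h
    simp only [hw']
    rw [hδ0 _ h, mul_zero, add_zero]
  have hSm : ∀ u, Sm Γ w' u = Sm Γ w u + t * σ u := by
    intro u
    simp only [Sm, hw', hσ]
    rw [Finset.sum_add_distrib, Finset.mul_sum]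
  have htE : ∀ e ∈ Ef Γ P w, 0 ≤ w' e.1 e.2 ∧ w' e.1 e.2 ≤ 1 := by
    intro e he
    have := ht1 (Sum.inl e) (by rw [Finset.inl_mem_disjSum]; exact he)
    simpa using this
  have htN : ∀ u ∈ NT Γ Q w, (⌊Sm Γ w u⌋ : ℝ) ≤ Sm Γ w' u ∧ Sm Γ w' u ≤ (⌈Sm Γ w u⌉ : ℝ) := by
    intro u hu
    have := ht1 (Sum.inr u) (by rw [Finset.inr_mem_disjSum]; exact hu)
    rw [hSm]
    simpa using this
  have hsubE : Ef Γ P w' ⊆ Ef Γ P w := by
    intro e he
    by_contra hne
    rw [Ef, Finset.mem_filter] at he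
    have h1 := hsame e.1 e.2 hne
    rw [h1] at he
    exact hne ((hmem e).mpr he.2)
  have hsubN : NT Γ Q w' ⊆ NT Γ Q w := by
    intro u hu
    by_contra hne
    rw [NT, Finset.mem_filter] at hu
    rw [hSm, hσ0 u hu.1 hne, mul_zero, add_zero] at hu
    exact hne (Finset.mem_filter.mpr hu)
  refine ⟨w', ⟨?_, ?_, ?_⟩, ?_⟩
  · intro z u
    by_cases h : (z, u) ∈ Ef Γ P w
    · exact htE _ h
    · rw [hsame z u h]; exact hw1 z u
  · intro z hz
    simp only [hw']
    rw [Finset.sum_add_distrib, ← Finset.mul_sum, sum_left Γ P w δ hδ0 z, hδL z, mul_zero,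
      add_zero]
    exact hw2 z hz
  · intro u hu
    obtain ⟨h1, h2⟩ := hw3 u hu
    by_cases hn : u ∈ NT Γ Q w
    · obtain ⟨h3, h4⟩ := htN u hn
      have h5 : ⌊Sm Γ y u⌋ ≤ ⌊Sm Γ w u⌋ := Int.le_floor.mpr h1
      have h6 : ⌈Sm Γ w u⌉ ≤ ⌈Sm Γ y u⌉ := Int.ceil_le.mpr h2
      have h5' : (⌊Sm Γ y u⌋ : ℝ) ≤ (⌊Sm Γ w u⌋ : ℝ) := by exact_mod_cast h5
      have h6' : (⌈Sm Γ w u⌉ : ℝ) ≤ (⌈Sm Γ y u⌉ : ℝ) := by exact_mod_cast h6
      exact ⟨h5'.trans h3, h4.trans h6'⟩
    · rw [hSm, hσ0 u hu hn, mul_zero, add_zero]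
      exact ⟨h1, h2⟩
  · rcases i with e | u
    · rw [Finset.inl_mem_disjSum] at hi
      have hne : e ∉ Ef Γ P w' := by
        intro he
        rw [Ef, Finset.mem_filter] at he
        simp only [Sum.elim_inl] at hti
        rcases hti with h | h
        · exact he.2.2.2.1 h
        · exact he.2.2.2.2 h
      have h1 : (Ef Γ P w').card < (Ef Γ P w).card :=
        Finset.card_lt_card ((Finset.ssubset_iff_of_subset hsubE).mpr ⟨e, hi, hne⟩)
      have h2 := Finset.card_le_card hsubN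
      omega
    · rw [Finset.inr_mem_disjSum] at hi
      have hne : u ∉ NT Γ Q w' := by
        intro hu
        rw [NT, Finset.mem_filter] at hu
        apply hu.2
        rw [hSm]
        simp only [Sum.elim_inr] at hti
        rcases hti with h | h
        · exact ⟨_, h⟩
        · exact ⟨_, h⟩
      have h1 : (NT Γ Q w').card < (NT Γ Q w).card :=
        Finset.card_lt_card ((Finset.ssubset_iff_of_subset hsubN).mpr ⟨u, hi, hne⟩)
      have h2 := Finset.card_le_card hsubE
      omega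

end Main

theorem t_RND : S_RND := by
  intro V _ Γ P Q y n hB hy hn
  have key : ∀ N : ℕ, ∀ w : V → V → ℝ, Inv Γ P Q y n w →
      (Ef Γ P w).card + (NT Γ Q w).card ≤ N →
      ∃ Λ : SimpleGraph V, Λ ≤ Γ ∧ (∀ z ∈ P, nb Λ univ z = n z) ∧
        ∀ u ∈ Q, |(nb Λ univ u : ℝ) - Sm Γ y u| < 1 := by
    intro N
    induction N with
    | zero =>
      intro w hw hN
      apply base Γ P Q hB y n w hw
      rw [← Finset.card_eq_zero]
      omega
    | succ N ih =>
      intro w hw hN
      by_cases hE : (Ef Γ P w).Nonempty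
      · obtain ⟨w', hw', hlt⟩ := step Γ P Q hB y n w hw hE
        exact ih w' hw' (by omega)
      · exact base Γ P Q hB y n w hw (Finset.not_nonempty_iff_eq_empty.mp hE)
  exact key _ y ⟨hy, hn, fun u _ => ⟨Int.floor_le _, Int.le_ceil _⟩⟩ (le_refl _)

end Pool.Agent.H68.HW
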